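import Pool.Agent.Helper679_TR.Fin

/-!
MP_560012_lc: the isomorphism relation for Archimedean orders on `ℤ³` is not treeable.

Definitions: `Pool/Agent/Helper679_TR/Order.lean`.

Idea. An Archimedean order of `ℤ³` is given by a rationally independent vector `c`, up to positive
scalars; almost every real `3 × 3` matrix `M` with `|det M| ≤ 1` gives one through its first column,
and the fibres are acted on from the right by a group `P` that contains a free group `⟨a, b⟩` acting on
the other two columns and a commuting diagonal flow `z`. A Borel treeing of the orbit relation puts on
the orbit of each `M`, that is on `GL₃(ℤ)`, a tree that does not change under `P`. Compare the points
`M` and `zⁿ M` of the fundamental domain: the path between them, weighted by a proper length function,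
is long for most `M`; put on each matrix of the orbit the normalised weight that this path has
there. This gives positive functions of total mass the covolume. As `a`, `b` commute with `zⁿ` and
move the two end points by a bounded amount, these functions are almost invariant under `a` and `b`,
and this contradicts the paradoxical decomposition of the pairs (second, third entry of the first
row) under `a`, `b`.
-/

namespace Pool.Agent.Results.MP_560012_lc.NotTreeable

open Pool.Agent.Helper679_TR

/-- The orbit equivalence relation of `GL₃(ℤ)` on the space `Ar(ℤ³)` of Archimedean orders of `ℤ³` is
not treeable: no acyclic graph with Borel edge set has exactly the orbits as connected components. -/
theorem result : ¬ Treeable OrbitRel := not_treeable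

end Pool.Agent.Results.MP_560012_lc.NotTreeable
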